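import Pool.Agent.HAR.Stmts

/-!
# Squad HAR, row PRM: the image of a set under a random permutation
-/

namespace Pool.Agent.HAR.H19

open Finset Filter Topology Pool.Agent.HAR

theorem exists_perm {n : ℕ} {S S' : Finset (Fin n)} (h : S.card = S'.card) :
    ∃ σ : Equiv.Perm (Fin n), S.map σ.toEmbedding = S' := by
  classical
  have e : {x // x ∈ S} ≃ {x // x ∈ S'} := Fintype.equivOfCardEq (by simpa using h)
  refine ⟨e.extendSubtype, ?_⟩
  apply Finset.eq_of_subset_of_card_le
  · intro y hy
    obtain ⟨x, hx, rfl⟩ := Finset.mem_map.1 hy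
    exact e.extendSubtype_mem x hx
  · rw [card_map, h]

/-- the number of permutations which map `S0` onto `S` -/
def cnt {n : ℕ} (S0 S : Finset (Fin n)) : ℕ :=
  ((univ : Finset (Equiv.Perm (Fin n))).filter fun π => S0.map π.toEmbedding = S).card

theorem cnt_le {n : ℕ} {S0 S S' : Finset (Fin n)} (h : S.card = S'.card) :
    cnt S0 S ≤ cnt S0 S' := by
  obtain ⟨σ, hσ⟩ := exists_perm h
  refine Finset.card_le_card_of_injOn (fun π => π.trans σ) ?_ ?_
  · intro π hπ
    have h1 := (Finset.mem_filter.1 hπ).2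
    refine Finset.mem_coe.2 (Finset.mem_filter.2 ⟨mem_univ _, ?_⟩)
    rw [← hσ, ← h1, Finset.map_map]
    rfl
  · intro π _ π' _ h1
    ext x
    have h2 := congrArg (fun e : Equiv.Perm (Fin n) => e x) h1
    exact congrArg Fin.val (σ.injective h2)

theorem cnt_eq {n : ℕ} {S0 S S' : Finset (Fin n)} (h : S.card = S'.card) :
    cnt S0 S = cnt S0 S' := le_antisymm (cnt_le h) (cnt_le h.symm)

theorem card_B {n : ℕ} (S0 : Finset (Fin n)) (B : Finset (Finset (Fin n)))
    (hB : ∀ S ∈ B, S.card = S0.card) :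
    ((univ : Finset (Equiv.Perm (Fin n))).filter fun π => S0.map π.toEmbedding ∈ B).card =
      B.card * cnt S0 S0 := by
  classical
  have h1 := Finset.card_eq_sum_card_fiberwise (s := (univ : Finset (Equiv.Perm (Fin n))).filter
    fun π => S0.map π.toEmbedding ∈ B) (t := B) (f := fun π => S0.map π.toEmbedding)
    (fun π hπ => (Finset.mem_filter.1 hπ).2)
  rw [h1]
  have h2 : ∀ S ∈ B, (((univ : Finset (Equiv.Perm (Fin n))).filter
      fun π => S0.map π.toEmbedding ∈ B).filter fun π => S0.map π.toEmbedding = S).card =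
      cnt S0 S0 := by
    intro S hS
    rw [← cnt_eq (S0 := S0) (hB S hS)]
    unfold cnt
    congr 1
    ext π
    simp only [Finset.mem_filter, mem_univ, true_and]
    constructor
    · exact fun h => h.2
    · exact fun h => ⟨h ▸ hS, h⟩
  rw [Finset.sum_congr rfl h2, sum_const, smul_eq_mul]

theorem prm : PrmStmt := by
  intro n s S0 B hs hB
  classical
  subst hs
  have h0 : 0 < cnt S0 S0 := by
    refine Finset.card_pos.2 ⟨Equiv.refl _, ?_⟩
    simp
  have h1 := card_B S0 B hB
  have h2 := card_B S0 (powersetCard S0.card univ) (fun S hS => (mem_powersetCard.1 hS).2)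
  have h3 : ((univ : Finset (Equiv.Perm (Fin n))).filter
      fun π => S0.map π.toEmbedding ∈ powersetCard S0.card univ) = univ := by
    refine Finset.filter_true_of_mem fun π _ => mem_powersetCard.2 ⟨subset_univ _, ?_⟩
    rw [card_map]
  rw [h3, card_powersetCard, card_univ] at h2
  unfold pr
  rw [Nat.card_eq_fintype_card, Nat.card_eq_fintype_card, Fintype.card_subtype, h1, h2,
    card_univ, Fintype.card_fin]
  push_cast
  have h4 : (cnt S0 S0 : ℝ) ≠ 0 := by exact_mod_cast h0.ne'
  rw [mul_div_mul_right _ _ h4]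

end Pool.Agent.HAR.H19
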